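import Pool.Agent.Y918.AT.Shift
import Pool.Agent.TH813.Uni6

set_option autoImplicit false
set_option linter.style.haveILetI false

/-!
# Finite extensions of spaces on which Schanuel's inequality holds
-/

namespace Pool.Agent.Y918.FA

open Module Pool.Agent.H327R2.SC

/-- `U` with its exponentials. -/
def es (U : Submodule ℚ ℂ) : Set ℂ := (U : Set ℂ) ∪ Complex.exp '' (U : Set ℂ)

theorem es_mono {U U' : Submodule ℚ ℂ} (h : U ≤ U') : es U ⊆ es U' :=
  Set.union_subset_union h (Set.image_mono h)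

theorem mem_es {U : Submodule ℚ ℂ} {x : ℂ} (hx : x ∈ U) : x ∈ es U := Or.inl hx

theorem exp_mem_es {U : Submodule ℚ ℂ} {x : ℂ} (hx : x ∈ U) : Complex.exp x ∈ es U :=
  Or.inr ⟨x, hx, rfl⟩

theorem es_subset_cl {ι : Type} (z : ι → ℂ) :
    es (Submodule.span ℚ (Set.range z)) ⊆ MM.closure (EE z) := by
  have key : ∀ x ∈ Submodule.span ℚ (Set.range z),
      x ∈ MM.closure (EE z) ∧ Complex.exp x ∈ MM.closure (EE z) := by
    intro x hx
    induction hx using Submodule.span_induction with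
    | mem x hx =>
      obtain ⟨i, rfl⟩ := hx
      exact ⟨subset_cl _ (Or.inl ⟨i, rfl⟩), subset_cl _ (Or.inr ⟨i, rfl⟩)⟩
    | zero =>
      refine ⟨cl_of_alg _ isAlgebraic_zero, ?_⟩
      rw [Complex.exp_zero]
      exact cl_of_alg _ isAlgebraic_one
    | add x y _ _ hx hy =>
      refine ⟨cl_add hx.1 hy.1, ?_⟩
      rw [Complex.exp_add]
      exact cl_mul hx.2 hy.2
    | smul q x _ hx =>
      rw [Rat.smul_def]
      refine ⟨cl_mul (cl_of_alg _ ?_) hx.1, Pool.Agent.Y918.AT.cl_exp_rat hx.2 q⟩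
      have := isAlgebraic_algebraMap (R := ℚ) (A := ℂ) q
      simpa using this
  rintro y (hy | ⟨x, hx, rfl⟩)
  · exact (key y hy).1
  · exact (key x hx).2

theorem rk_es_span {ι : Type} (z : ι → ℂ) :
    rk (es (Submodule.span ℚ (Set.range z))) = rk (EE z) := by
  apply le_antisymm
  · exact rk_le_of_subset_cl (es_subset_cl z)
  · apply MM.eRk_mono
    rintro _ (⟨i, rfl⟩ | ⟨i, rfl⟩)
    · exact mem_es (Submodule.subset_span ⟨i, rfl⟩)
    · exact exp_mem_es (Submodule.subset_span ⟨i, rfl⟩)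

/-- A basis. -/
theorem exists_basis (U : Submodule ℚ ℂ) [FiniteDimensional ℚ U] :
    ∃ z : Fin (finrank ℚ U) → ℂ, LinearIndependent ℚ z ∧ (∀ i, z i ∈ U) ∧
      Submodule.span ℚ (Set.range z) = U := by
  let b := Module.finBasis ℚ U
  refine ⟨fun i => b i, b.linearIndependent.map' U.subtype (Submodule.ker_subtype U),
    fun i => (b i).2, ?_⟩
  have h1 : Set.range (fun i => (b i : ℂ)) = U.subtype '' Set.range b := by
    rw [← Set.range_comp]
    rfl
  rw [h1, Submodule.span_image, b.span_eq, Submodule.map_subtype_top]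

theorem rk_es_ne_top (U : Submodule ℚ ℂ) [FiniteDimensional ℚ U] : rk (es U) ≠ ⊤ := by
  obtain ⟨z, _, _, hz⟩ := exists_basis U
  rw [← hz, rk_es_span]
  exact rk_ne_top (EE_finite z)

/-- The transcendence degree of a finite dimensional space. -/
noncomputable def td (U : Submodule ℚ ℂ) : ℕ := (rk (es U)).toNat

theorem coe_td (U : Submodule ℚ ℂ) [FiniteDimensional ℚ U] : ((td U : ℕ) : ℕ∞) = rk (es U) :=
  ENat.coe_toNat (rk_es_ne_top U)

theorem td_submod (U U' : Submodule ℚ ℂ) [FiniteDimensional ℚ U] [FiniteDimensional ℚ U'] :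
    td (U ⊓ U') + td (U ⊔ U') ≤ td U + td U' := by
  have h1 : rk (es (U ⊓ U')) ≤ MM.eRk (es U ∩ es U') :=
    MM.eRk_mono (Set.subset_inter (es_mono inf_le_left) (es_mono inf_le_right))
  have h2 : rk (es (U ⊔ U')) ≤ MM.eRk (es U ∪ es U') := by
    apply rk_le_of_subset_cl
    have key : ∀ x ∈ U ⊔ U', x ∈ MM.closure (es U ∪ es U') ∧
        Complex.exp x ∈ MM.closure (es U ∪ es U') := by
      intro x hx
      obtain ⟨u, hu, u', hu', rfl⟩ := Submodule.mem_sup.1 hx
      refine ⟨cl_add (subset_cl _ (Or.inl (mem_es hu))) (subset_cl _ (Or.inr (mem_es hu'))), ?_⟩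
      rw [Complex.exp_add]
      exact cl_mul (subset_cl _ (Or.inl (exp_mem_es hu))) (subset_cl _ (Or.inr (exp_mem_es hu')))
    rintro y (hy | ⟨x, hx, rfl⟩)
    · exact (key y hy).1
    · exact (key x hx).2
  have h3 := MM.eRk_submod (es U) (es U')
  have h4 : ((td (U ⊓ U') + td (U ⊔ U') : ℕ) : ℕ∞) ≤ ((td U + td U' : ℕ) : ℕ∞) := by
    push_cast
    rw [coe_td, coe_td, coe_td, coe_td]
    exact (add_le_add h1 h2).trans h3
  exact_mod_cast h4

/-- The defect function. -/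
noncomputable def dl (U : Submodule ℚ ℂ) : ℤ := (td U : ℤ) - finrank ℚ U

theorem dl_submod (U U' : Submodule ℚ ℂ) [FiniteDimensional ℚ U] [FiniteDimensional ℚ U'] :
    dl (U ⊓ U') + dl (U ⊔ U') ≤ dl U + dl U' := by
  have h1 := td_submod U U'
  have h2 := Submodule.finrank_sup_add_finrank_inf_eq U U'
  unfold dl
  omega

theorem finrank_le (X V U : Submodule ℚ ℂ) [FiniteDimensional ℚ V] [FiniteDimensional ℚ U]
    (h : U ≤ X ⊔ V) : finrank ℚ U ≤ finrank ℚ (U ⊓ X : Submodule ℚ ℂ) + finrank ℚ V := by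
  have h1 := (X.mkQ.domRestrict U).finrank_range_add_finrank_ker
  have h2 : finrank ℚ (LinearMap.range (X.mkQ.domRestrict U)) ≤ finrank ℚ V := by
    have h3 : LinearMap.range (X.mkQ.domRestrict U) ≤ V.map X.mkQ := by
      rintro _ ⟨u, rfl⟩
      obtain ⟨x, hx, v, hv, hxv⟩ := Submodule.mem_sup.1 (h u.2)
      refine ⟨v, hv, ?_⟩
      rw [LinearMap.domRestrict_apply, ← hxv, map_add]
      have h4 : X.mkQ x = 0 := (Submodule.Quotient.mk_eq_zero X).2 hx
      rw [h4, zero_add]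
    exact (Submodule.finrank_mono h3).trans (Submodule.finrank_map_le _ _)
  have h3 : finrank ℚ (LinearMap.ker (X.mkQ.domRestrict U)) ≤
      finrank ℚ (U ⊓ X : Submodule ℚ ℂ) := by
    rw [← Submodule.finrank_map_subtype_eq]
    apply Submodule.finrank_mono
    rintro _ ⟨u, hu, rfl⟩
    refine ⟨u.2, ?_⟩
    have h4 : X.mkQ (u : ℂ) = 0 := LinearMap.mem_ker.1 hu
    exact (Submodule.Quotient.mk_eq_zero X).1 h4
  omega

/-- The transcendence degree, as a cardinal. -/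
noncomputable def trd (S : Set ℂ) : Cardinal :=
  Algebra.trdeg ℚ (IntermediateField.adjoin ℚ S)

theorem trd_add_le_iff {S : Set ℂ} {m n : ℕ} :
    trd S + m ≤ n ↔ rk S + (m : ℕ∞) ≤ (n : ℕ∞) := by
  have h1 := toENat_trdeg S
  change Cardinal.toENat (trd S) = rk S at h1
  constructor
  · intro h
    have h2 : trd S < Cardinal.aleph0 :=
      lt_of_le_of_lt (le_self_add.trans h) Cardinal.natCast_lt_aleph0
    obtain ⟨t, ht⟩ := Cardinal.lt_aleph0.1 h2
    rw [ht] at h h1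
    rw [← h1, Cardinal.toENat_nat]
    have h3 : t + m ≤ n := by exact_mod_cast h
    exact_mod_cast h3
  · intro h
    have h2 : rk S ≠ ⊤ := by
      intro h3
      rw [h3, top_add] at h
      exact absurd h (by simp)
    obtain ⟨t, ht⟩ := toENat_lt_top_nat (c := trd S) (by rw [h1]; exact h2)
    rw [ht, Cardinal.toENat_nat] at h1
    rw [← h1] at h
    rw [ht]
    have h3 : t + m ≤ n := by exact_mod_cast h
    exact_mod_cast h3

/-- The space of the algebraic numbers. -/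
noncomputable def QA : Submodule ℚ ℂ := Subalgebra.toSubmodule (algebraicClosure ℚ ℂ).toSubalgebra

theorem mem_QA {x : ℂ} : x ∈ QA ↔ IsAlgebraic ℚ x := by
  unfold QA
  rw [Subalgebra.mem_toSubmodule]
  exact mem_algebraicClosure_iff

/-- **A space of minimal defect.** -/
theorem exists_min (X V : Submodule ℚ ℂ) [FiniteDimensional ℚ V]
    (hX : ∀ (n : ℕ) (z : Fin n → ℂ), LinearIndependent ℚ z → (∀ i, z i ∈ X) →
      (n : ℕ∞) ≤ rk (EE z)) :
    ∃ W : Submodule ℚ ℂ, FiniteDimensional ℚ W ∧ W ≤ X ⊔ V ∧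
      ∀ U : Submodule ℚ ℂ, FiniteDimensional ℚ U → U ≤ X ⊔ V → dl (U ⊓ W) ≤ dl U := by
  classical
  have hlow : ∀ U : Submodule ℚ ℂ, FiniteDimensional ℚ U → U ≤ X ⊔ V →
      -(finrank ℚ V : ℤ) ≤ dl U := by
    intro U _ hU
    have h1 := finrank_le X V U hU
    obtain ⟨z, hz, hzm, hsp⟩ := exists_basis (U ⊓ X)
    have h2 := hX _ z hz (fun i => (hzm i).2)
    rw [← rk_es_span, hsp] at h2
    have h3 := h2.trans (MM.eRk_mono (es_mono (inf_le_left (a := U) (b := X))))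
    change _ ≤ rk (es U) at h3
    rw [← coe_td] at h3
    have h4 : finrank ℚ (U ⊓ X : Submodule ℚ ℂ) ≤ td U := by exact_mod_cast h3
    unfold dl
    omega
  -- the minimum
  let P : ℕ → Prop := fun k => ∃ U : Submodule ℚ ℂ, FiniteDimensional ℚ U ∧ U ≤ X ⊔ V ∧
    dl U + finrank ℚ V = k
  have hP : ∃ k, P k := by
    have h1 := hlow ⊥ inferInstance bot_le
    exact ⟨(dl ⊥ + finrank ℚ V).toNat, ⊥, inferInstance, bot_le, by omega⟩
  obtain ⟨W, hW, hWZ, hWk⟩ := Nat.find_spec hP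
  refine ⟨W, hW, hWZ, ?_⟩
  intro U hU hUZ
  have h1 := dl_submod U W
  have h2 : dl W ≤ dl (U ⊔ W) := by
    by_contra hcon
    push Not at hcon
    have h3 := hlow (U ⊔ W) inferInstance (sup_le hUZ hWZ)
    have h4 : P (dl (U ⊔ W) + finrank ℚ V).toNat :=
      ⟨U ⊔ W, inferInstance, sup_le hUZ hWZ, by omega⟩
    have h5 := Nat.find_min' hP h4
    omega
  omega

/-- **The main theorem.** -/
theorem finite_account (X V : Submodule ℚ ℂ) [FiniteDimensional ℚ V]
    (hX : ∀ (n : ℕ) (z : Fin n → ℂ), LinearIndependent ℚ z → (∀ i, z i ∈ X) →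
      (n : Cardinal) ≤ trd (Set.range z ∪ Complex.exp '' Set.range z)) :
    ∃ T : Finset (Submodule ℚ ℂ),
      (∀ W ∈ T, FiniteDimensional ℚ W ∧ W ≤ X ⊔ V ∧
        trd ((W : Set ℂ) ∪ Complex.exp '' (W : Set ℂ)) < finrank ℚ W) ∧
      ∀ U : Submodule ℚ ℂ, U ≤ X ⊔ V → ∀ m : ℕ, 0 < m →
        ((∃ (n : ℕ) (z : Fin n → ℂ), LinearIndependent ℚ z ∧ (∀ i, z i ∈ U) ∧
            trd (Set.range z ∪ Complex.exp '' Set.range z) + m ≤ n) ↔
          ∃ W ∈ T, trd (((U ⊓ W : Submodule ℚ ℂ) : Set ℂ) ∪ Complex.exp '' (W : Set ℂ)) + m ≤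
              finrank ℚ (U ⊓ W : Submodule ℚ ℂ)) := by
  classical
  obtain ⟨W₀, hW₀, hW₀Z, hmin⟩ := exists_min X V (by
    intro n z hz hzX
    have h1 := hX n z hz hzX
    have h2 := toENat_trdeg (Set.range z ∪ Complex.exp '' Set.range z)
    rw [EE_eq] at h2
    rw [EE_eq] at h1
    rw [← h2]
    exact Cardinal.natCast_le_toENat.2 h1)
  obtain ⟨N, hN⟩ := Pool.Agent.TH813.Uni.abs' (finrank ℚ W₀)
  obtain ⟨T, _, hT1, hT2⟩ := hN W₀ hW₀ le_rfl
  refine ⟨T, ?_, ?_⟩
  · intro W hW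
    exact ⟨Submodule.finiteDimensional_of_le (hT1 W hW).1, (hT1 W hW).1.trans hW₀Z, (hT1 W hW).2⟩
  · intro U hUZ m hm
    have h1 := hT2 (U ⊓ W₀) inf_le_right m hm
    have h2 : ∀ W ∈ T, (U ⊓ W₀) ⊓ W = U ⊓ W := by
      intro W hW
      rw [inf_assoc, inf_eq_right.2 (hT1 W hW).1]
    constructor
    · rintro ⟨n, z, hz, hzU, hzm⟩
      -- the space generated by `z`
      set U' : Submodule ℚ ℂ := Submodule.span ℚ (Set.range z) with hU'
      have hfd : FiniteDimensional ℚ U' := FiniteDimensional.span_of_finite ℚ (Set.finite_range z)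
      have hU'U : U' ≤ U := by
        rw [hU', Submodule.span_le]
        rintro _ ⟨i, rfl⟩
        exact hzU i
      have h3 := hmin U' hfd (hU'U.trans hUZ)
      have h4 : finrank ℚ U' = n := by
        rw [hU', finrank_span_eq_card hz, Fintype.card_fin]
      have h5 : td U' + m ≤ n := by
        rw [trd_add_le_iff, EE_eq, ← rk_es_span, ← hU', ← coe_td] at hzm
        exact_mod_cast hzm
      obtain ⟨z', hz', hz'm, hsp'⟩ := exists_basis (U' ⊓ W₀)
      have h6 : td (U' ⊓ W₀) + m ≤ finrank ℚ (U' ⊓ W₀ : Submodule ℚ ℂ) := by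
        unfold dl at h3
        omega
      obtain ⟨W, hW, hWm⟩ := h1.1 ⟨finrank ℚ (U' ⊓ W₀ : Submodule ℚ ℂ), z', hz',
        fun i => ⟨hU'U (hz'm i).1, (hz'm i).2⟩, by
        change trd (Set.range z' ∪ Complex.exp '' Set.range z') + m ≤ _
        rw [trd_add_le_iff, EE_eq, ← rk_es_span, hsp', ← coe_td]
        exact_mod_cast h6⟩
      refine ⟨W, hW, ?_⟩
      rw [h2 W hW] at hWm
      exact hWm
    · rintro ⟨W, hW, hWm⟩
      obtain ⟨n, z, hz, hzU, hzm⟩ := h1.2 ⟨W, hW, by rw [h2 W hW]; exact hWm⟩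
      exact ⟨n, z, hz, fun i => (hzU i).1, hzm⟩

/-- The theorem of Lindemann and Weierstrass. -/
theorem lw_QA (n : ℕ) (z : Fin n → ℂ) (hz : LinearIndependent ℚ z) (hzX : ∀ i, IsAlgebraic ℚ (z i)) :
    (n : Cardinal) ≤ trd (Set.range z ∪ Complex.exp '' Set.range z) := by
  have h2 := toENat_trdeg (Set.range z ∪ Complex.exp '' Set.range z)
  rw [EE_eq] at h2 ⊢
  have h3 := Pool.Agent.Y918.AT.card_le_rk z hzX hz
  rw [Fintype.card_fin] at h3
  have h4 : (n : ℕ∞) ≤ rk (EE z) := by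
    rw [h3]
    exact MM.eRk_mono (fun x hx => Or.inr hx)
  rw [← h2] at h4
  exact Cardinal.natCast_le_toENat.1 h4

end Pool.Agent.Y918.FA
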